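import Pool.Agent.Helper89.TT.Basic

set_option autoImplicit false

open Finset

namespace Pool.Agent.Helper89.TT

theorem ep_sq {x y t : ℕ} (h : Nat.Coprime x y) (he : x * y = t ^ 2) :
    (∃ u, x = u ^ 2) ∧ (∃ v, y = v ^ 2) := by
  refine ⟨exists_eq_pow_of_mul_eq_pow (Nat.isUnit_iff.2 h) he, ?_⟩
  have h' : Nat.Coprime y x := h.symm
  exact exists_eq_pow_of_mul_eq_pow (Nat.isUnit_iff.2 h') (by rw [mul_comm]; exact he)

theorem st_EP : ST_EP := by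
  intro a b ha hb hs
  obtain ⟨c, hc⟩ := hs
  have hcb : b < c := by
    by_contra hcon
    have h1 : c ≤ b := not_lt.1 hcon
    have h2 : c * c ≤ b * b := Nat.mul_le_mul h1 h1
    have h3 : 0 < a ^ 2 := pow_pos ha 2
    rw [← hc] at h2
    have h4 : b ^ 2 = b * b := by ring
    rw [h4] at h2
    omega
  obtain ⟨d, hd⟩ : ∃ d, c = b + d := ⟨c - b, by omega⟩
  have hd0 : 0 < d := by omega
  subst hd
  have h1 : a ^ 2 = d * (d + 2 * b) := by
    have h2 : a ^ 2 + b ^ 2 = b ^ 2 + d * (d + 2 * b) := by rw [hc]; ring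
    omega
  obtain ⟨x, y, hxy, hx, hy⟩ : ∃ x y : ℕ, Nat.Coprime x y ∧ d = Nat.gcd d (d + 2 * b) * x ∧
      d + 2 * b = Nat.gcd d (d + 2 * b) * y := by
    refine ⟨d / Nat.gcd d (d + 2 * b), (d + 2 * b) / Nat.gcd d (d + 2 * b), ?_, ?_, ?_⟩
    · exact Nat.coprime_div_gcd_div_gcd (Nat.gcd_pos_of_pos_left _ hd0)
    · exact (Nat.mul_div_cancel' (Nat.gcd_dvd_left _ _)).symm
    · exact (Nat.mul_div_cancel' (Nat.gcd_dvd_right _ _)).symm
  have hk : 0 < Nat.gcd d (d + 2 * b) := Nat.gcd_pos_of_pos_left _ hd0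
  obtain ⟨k, hkk⟩ : ∃ k, k = Nat.gcd d (d + 2 * b) := ⟨_, rfl⟩
  rw [← hkk] at hx hy hk
  have h2 : a ^ 2 = k ^ 2 * (x * y) := by
    calc a ^ 2 = d * (d + 2 * b) := h1
      _ = (k * x) * (k * y) := by rw [← hy, ← hx]
      _ = k ^ 2 * (x * y) := by ring
  have h3 : k ∣ a := by
    have h4 : k ^ 2 ∣ a ^ 2 := ⟨x * y, h2⟩
    exact (Nat.pow_dvd_pow_iff (by norm_num)).1 h4
  obtain ⟨t, ht⟩ := h3
  have h5 : x * y = t ^ 2 := by
    have h6 : k ^ 2 * (x * y) = k ^ 2 * t ^ 2 := by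
      rw [← h2, ht]; ring
    exact Nat.eq_of_mul_eq_mul_left (pow_pos hk 2) h6
  obtain ⟨⟨u, hu⟩, ⟨v, hv⟩⟩ := ep_sq hxy h5
  have huv : t = u * v := by
    have h7 : t ^ 2 = (u * v) ^ 2 := by rw [← h5, hu, hv]; ring
    exact Nat.pow_left_injective (by norm_num : 2 ≠ 0) h7
  have hpar : Par a b k u v := by
    refine ⟨?_, ?_, ?_, hk, ?_, ?_⟩
    · rw [ht, huv]; ring
    · rw [← hu, ← hv, ← hx, ← hy]; ring
    · rw [hu, hv] at hxy
      exact (Nat.coprime_pow_left_iff (by norm_num) _ _).1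
        ((Nat.coprime_pow_right_iff (by norm_num) _ _).1 hxy)
    · rcases Nat.eq_zero_or_pos u with h8 | h8
      · rw [h8] at hu
        rw [hu] at hx
        omega
      · exact h8
    · rcases Nat.eq_zero_or_pos v with h8 | h8
      · rw [h8] at hv
        rw [hv] at hy
        omega
      · exact h8
  refine ⟨k, u, v, hpar, ?_, ?_⟩
  · have h8 : Nat.gcd a b ∣ a := Nat.gcd_dvd_left _ _
    have h9 : Nat.gcd a b ∣ b := Nat.gcd_dvd_right _ _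
    have h10 : Nat.gcd a b ^ 2 ∣ (b + d) ^ 2 := by
      have h11 : (b + d) ^ 2 = a ^ 2 + b ^ 2 := by rw [hc]; ring
      rw [h11]
      exact dvd_add (pow_dvd_pow_of_dvd h8 2) (pow_dvd_pow_of_dvd h9 2)
    have h12 : Nat.gcd a b ∣ b + d := (Nat.pow_dvd_pow_iff (by norm_num)).1 h10
    have h13 : Nat.gcd a b ∣ d := (Nat.dvd_add_right h9).1 h12
    rw [hkk]
    exact Nat.dvd_gcd h13 (dvd_add h13 (Dvd.dvd.mul_left h9 2))
  · rw [← Nat.gcd_mul_left]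
    refine Nat.dvd_gcd ?_ ?_
    · exact Dvd.dvd.mul_left ⟨t, ht⟩ 2
    · have h8 : k ∣ 2 * b + k * u ^ 2 := ⟨v ^ 2, hpar.2.1⟩
      exact (Nat.dvd_add_left ⟨u ^ 2, rfl⟩).1 h8

end Pool.Agent.Helper89.TT
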